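import Pool.Agent.W224.AB.Total

/-!
# Arithmetic
-/

set_option autoImplicit false

open Finset

namespace Pool.Agent.W224.AB

variable {p : ℕ} [hp : Fact p.Prime]

theorem pow_two_mul (c : ℕ) : ∃ r : ℕ,
    ((p : ℤ)) ^ (2 * c) = 1 + ((p : ℤ) ^ 2 - 1) * ((c : ℤ) + ((p : ℤ) - 1) * r) := by
  induction c with
  | zero => exact ⟨0, by simp⟩
  | succ c ih =>
    obtain ⟨r, hr⟩ := ih
    refine ⟨(p + 1) * (c + (p - 1) * r) + r, ?_⟩
    have hp1 : 1 ≤ p := hp.out.one_lt.le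
    rw [show 2 * (c + 1) = 2 * c + 2 by ring, pow_add, hr]
    push_cast [Nat.cast_sub hp1]
    ring

theorem pow_gen (k : ℕ) : ∃ r : ℕ,
    ((p : ℤ)) ^ k = (p : ℤ) ^ (k % 2) + ((p : ℤ) ^ 2 - 1) * (((k / 2 : ℕ) : ℤ) + ((p : ℤ) - 1) * r) := by
  obtain ⟨r, hr⟩ := pow_two_mul (p := p) (k / 2)
  have h1 : (p : ℤ) ^ k = (p : ℤ) ^ (2 * (k / 2)) * (p : ℤ) ^ (k % 2) := by
    rw [← pow_add]
    congr 1
    omega
  rcases Nat.mod_two_eq_zero_or_one k with h | h
  · refine ⟨r, ?_⟩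
    rw [h1, hr, h]; ring
  · refine ⟨k / 2 + p * r, ?_⟩
    rw [h1, hr, h]
    push_cast
    ring

theorem pow_geom (D : ℕ) : ∃ g : ℕ, (p : ℤ) ^ D = 1 + ((p : ℤ) - 1) * g := by
  induction D with
  | zero => exact ⟨0, by simp⟩
  | succ D ih =>
    obtain ⟨g, hg⟩ := ih
    refine ⟨g * p + 1, ?_⟩
    rw [pow_succ, hg]
    push_cast
    ring

open Classical in
/-- number of zeros -/
noncomputable def zc {D : ℕ} (u : Fin D → ZMod p) : ℕ := (univ.filter fun i => u i = 0).card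

theorem cc_sum {D : ℕ} (u : Fin D → ZMod p) : cc u = ∑ i : Fin D, if u i = 0 then p else 1 := by
  classical
  unfold cc
  rw [Finset.card_filter, Fintype.sum_prod_type]
  apply Finset.sum_congr rfl
  intro i _
  by_cases h : u i = 0
  · rw [if_pos h]
    rw [Finset.sum_congr rfl (fun k _ => if_pos (Or.inr h))]
    simp
  · rw [if_neg h]
    have h1 : ∀ k : Fin p, (if (k.val = 0 ∨ u i = 0) then 1 else 0) =
        if k = ⟨0, hp.out.pos⟩ then 1 else 0 := by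
      intro k
      apply if_congr _ rfl rfl
      constructor
      · rintro (h2 | h2)
        · exact Fin.ext h2
        · exact absurd h2 h
      · intro h2
        left
        rw [h2]
    rw [Finset.sum_congr rfl (fun k _ => h1 k), Finset.sum_ite_eq']
    simp

theorem cc_eq {D : ℕ} (u : Fin D → ZMod p) : cc u = D + (p - 1) * zc u := by
  classical
  rw [cc_sum]
  have h1 : ∀ i : Fin D, (if u i = 0 then p else 1) = 1 + (p - 1) * (if u i = 0 then 1 else 0) := by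
    intro i
    have := hp.out.one_lt
    split_ifs <;> simp <;> omega
  rw [Finset.sum_congr rfl (fun i _ => h1 i), Finset.sum_add_distrib, ← Finset.mul_sum, zc,
    Finset.card_filter]
  simp

/-- closed form of the base part -/
theorem base_sum (D : ℕ) : ∑ u : Fin D → ZMod p, (p * p ^ cc u) ^ 2 =
    p ^ 2 * (p ^ (2 * p) + (p - 1) * p ^ 2) ^ D := by
  classical
  have h1 : ∀ u : Fin D → ZMod p, (p * p ^ cc u) ^ 2 =
      p ^ 2 * ∏ i : Fin D, p ^ (2 * if u i = 0 then p else 1) := by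
    intro u
    rw [Finset.prod_pow_eq_pow_sum, ← Finset.mul_sum, ← cc_sum]
    ring
  rw [Finset.sum_congr rfl (fun u _ => h1 u), ← Finset.mul_sum]
  congr 1
  have h2 := Finset.prod_univ_sum (fun _ : Fin D => (univ : Finset (ZMod p)))
    (fun (_ : Fin D) (x : ZMod p) => p ^ (2 * if x = 0 then p else 1))
  rw [Fintype.piFinset_univ] at h2
  rw [← h2, Finset.prod_const, Finset.card_univ, Fintype.card_fin]
  congr 1
  rw [← Finset.add_sum_erase _ _ (Finset.mem_univ (0 : ZMod p)), if_pos rfl]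
  congr 1
  rw [Finset.sum_congr rfl (fun x hx => by rw [if_neg (Finset.mem_erase.1 hx).1, mul_one]),
    Finset.sum_const, Finset.card_erase_of_mem (Finset.mem_univ _), Finset.card_univ, ZMod.card,
    smul_eq_mul]

/-- the smallest abundance of the family -/
theorem exists_A (D : ℕ) : ∃ A : ℕ,
    ((∑ u : Fin D → ZMod p, (p * p ^ cc u) ^ 2 : ℕ) : ℤ) + ((p : ℤ) - 1) * (p : ℤ) ^ D =
      ((((2 * p + 1) * D + 3) / 2 : ℕ) : ℤ) * ((p : ℤ) ^ 2 - 1) +
        (p : ℤ) ^ (((2 * p + 1) * D + 3) % 2) + (A : ℤ) * ((p : ℤ) ^ 2 - 1) * ((p : ℤ) - 1) := by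
  classical
  have hp1 : 1 ≤ p := hp.out.one_lt.le
  choose r hr using fun c : ℕ => pow_two_mul (p := p) c
  obtain ⟨r', hr'⟩ := pow_gen (p := p) (D + 1)
  obtain ⟨g, hg⟩ := pow_geom (p := p) D
  -- the number of zeros
  have hz : D ≤ ∑ u : Fin D → ZMod p, zc u := by
    have h1 : zc (0 : Fin D → ZMod p) = D := by
      unfold zc; simp
    calc D = zc (0 : Fin D → ZMod p) := h1.symm
      _ ≤ _ := Finset.single_le_sum (f := fun u : Fin D → ZMod p => zc u)
        (fun _ _ => Nat.zero_le _) (Finset.mem_univ _)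
  obtain ⟨s, hs⟩ := Nat.exists_eq_add_of_le hz
  -- sum of the exponents
  have hc : (∑ u : Fin D → ZMod p, ((1 + cc u : ℕ) : ℤ)) =
      (1 + D * p : ℕ) + ((p : ℤ) - 1) * ((g : ℤ) * (1 + D) + s) := by
    have h1 : ∀ u : Fin D → ZMod p, ((1 + cc u : ℕ) : ℤ) = (1 + D : ℤ) + ((p : ℤ) - 1) * zc u := by
      intro u
      rw [cc_eq]
      push_cast [Nat.cast_sub hp1]
      ring
    rw [Finset.sum_congr rfl (fun u _ => h1 u), Finset.sum_add_distrib, ← Finset.mul_sum]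
    have h2 : (∑ u : Fin D → ZMod p, (zc u : ℤ)) = (D : ℤ) + s := by exact_mod_cast hs
    rw [h2, Finset.sum_const, Finset.card_univ, Fintype.card_fun, ZMod.card, Fintype.card_fin,
      nsmul_eq_mul]
    push_cast
    rw [hg]
    ring
  have hK : ((∑ u : Fin D → ZMod p, (p * p ^ cc u) ^ 2 : ℕ) : ℤ) =
      (p : ℤ) ^ D + ((p : ℤ) ^ 2 - 1) * ((∑ u : Fin D → ZMod p, ((1 + cc u : ℕ) : ℤ)) +
        ((p : ℤ) - 1) * ∑ u : Fin D → ZMod p, (r (1 + cc u) : ℤ)) := by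
    have h1 : ∀ u : Fin D → ZMod p, (((p * p ^ cc u) ^ 2 : ℕ) : ℤ) =
        1 + ((p : ℤ) ^ 2 - 1) * (((1 + cc u : ℕ) : ℤ) + ((p : ℤ) - 1) * r (1 + cc u)) := by
      intro u
      rw [← hr (1 + cc u)]
      push_cast
      ring
    push_cast at h1 ⊢
    rw [Finset.sum_congr rfl (fun u _ => h1 u), Finset.sum_add_distrib, ← Finset.mul_sum,
      Finset.sum_add_distrib, ← Finset.mul_sum, Finset.sum_const, Finset.card_univ,
      Fintype.card_fun, ZMod.card, Fintype.card_fin, nsmul_eq_mul, mul_one]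
    push_cast
    ring
  have hm1 : ((2 * p + 1) * D + 3) / 2 = (1 + D * p) + (D + 1) / 2 := by
    have : (2 * p + 1) * D + 3 = 2 * (1 + D * p) + (D + 1) := by ring
    rw [this]; omega
  have hm2 : ((2 * p + 1) * D + 3) % 2 = (D + 1) % 2 := by
    have : (2 * p + 1) * D + 3 = 2 * (1 + D * p) + (D + 1) := by ring
    rw [this]; omega
  refine ⟨(g * (1 + D) + s) + (∑ u : Fin D → ZMod p, r (1 + cc u)) + r', ?_⟩
  rw [hK, hc, hm1, hm2]
  have h3 : (p : ℤ) ^ D + ((p : ℤ) - 1) * (p : ℤ) ^ D = (p : ℤ) ^ (D + 1) := by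
    rw [pow_succ]; ring
  have h4 : (p : ℤ) ^ D + ((p : ℤ) ^ 2 - 1) * (((1 + D * p : ℕ) : ℤ) +
      ((p : ℤ) - 1) * ((g : ℤ) * (1 + D) + s) +
        ((p : ℤ) - 1) * ∑ u : Fin D → ZMod p, (r (1 + cc u) : ℤ)) + ((p : ℤ) - 1) * (p : ℤ) ^ D =
      (p : ℤ) ^ (D + 1) + ((p : ℤ) ^ 2 - 1) * (((1 + D * p : ℕ) : ℤ) +
      ((p : ℤ) - 1) * ((g : ℤ) * (1 + D) + s) +
        ((p : ℤ) - 1) * ∑ u : Fin D → ZMod p, (r (1 + cc u) : ℤ)) := by
    rw [← h3]; ring
  rw [h4, hr']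
  push_cast
  ring

end Pool.Agent.W224.AB
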