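import Mathlib

/-!
# Class numbers of groups of Heisenberg type
-/

set_option autoImplicit false

open Finset

namespace Pool.Agent.W224.AB

section Char

variable {p : ℕ} [Fact p.Prime]

theorem sum_char {A : Type} [AddCommGroup A] [Fintype A] (f : A →+ ZMod p) :
    ∑ a : A, (ZMod.stdAddChar (f a) : ℂ) =
      if (∀ a, f a = 0) then (Fintype.card A : ℂ) else 0 := by
  classical
  have h := AddChar.sum_eq_ite ((ZMod.stdAddChar (N := p)).compAddMonoidHom f)
  have h1 : (∑ a : A, (ZMod.stdAddChar (f a) : ℂ)) =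
      ∑ a : A, ((ZMod.stdAddChar (N := p)).compAddMonoidHom f) a := by
    rfl
  rw [h1, h]
  have h2 : ((ZMod.stdAddChar (N := p)).compAddMonoidHom f = 0) ↔ ∀ a, f a = 0 := by
    constructor
    · intro h3 a
      have h4 : ((ZMod.stdAddChar (N := p)).compAddMonoidHom f) a = 1 := by
        rw [h3]; rfl
      have h5 : (ZMod.stdAddChar (f a) : ℂ) = ZMod.stdAddChar (0 : ZMod p) := by
        rw [AddChar.map_zero_eq_one]; exact h4
      exact ZMod.injective_stdAddChar h5
    · intro h3
      ext a
      show (ZMod.stdAddChar (f a) : ℂ) = 1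
      rw [h3 a, AddChar.map_zero_eq_one]
  by_cases h6 : ∀ a, f a = 0
  · rw [if_pos h6, if_pos (h2.2 h6)]
  · rw [if_neg h6, if_neg (fun h7 => h6 (h2.1 h7))]

end Char

/-- triples `(x,y,z)`; the group law is `(x,y,z)(x',y',z') = (x+x', y+y', z+z'+B x y')` -/
@[ext] structure HG {X Y Z : Type} [AddCommGroup X] [AddCommGroup Y] [AddCommGroup Z]
    (B : X →+ Y →+ Z) where
  x : X
  y : Y
  z : Z

namespace HG

variable {X Y Z : Type} [AddCommGroup X] [AddCommGroup Y] [AddCommGroup Z] (B : X →+ Y →+ Z)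

instance : Group (HG B) where
  mul g h := ⟨g.x + h.x, g.y + h.y, g.z + h.z + B g.x h.y⟩
  one := ⟨0, 0, 0⟩
  inv g := ⟨-g.x, -g.y, -g.z + B g.x g.y⟩
  mul_assoc a b c := by
    show (⟨_, _, _⟩ : HG B) = ⟨_, _, _⟩
    congr 1
    · exact add_assoc _ _ _
    · exact add_assoc _ _ _
    · show a.z + b.z + B a.x b.y + c.z + B (a.x + b.x) c.y =
        a.z + (b.z + c.z + B b.x c.y) + B a.x (b.y + c.y)
      rw [map_add, map_add, AddMonoidHom.add_apply]
      abel
  one_mul a := by
    show (⟨_, _, _⟩ : HG B) = _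
    ext
    · exact zero_add _
    · exact zero_add _
    · show 0 + a.z + B 0 a.y = a.z
      rw [map_zero, AddMonoidHom.zero_apply]; abel
  mul_one a := by
    show (⟨_, _, _⟩ : HG B) = _
    ext
    · exact add_zero _
    · exact add_zero _
    · show a.z + 0 + B a.x 0 = a.z
      rw [map_zero]; abel
  inv_mul_cancel a := by
    show (⟨_, _, _⟩ : HG B) = ⟨0, 0, 0⟩
    congr 1
    · exact neg_add_cancel _
    · exact neg_add_cancel _
    · show -a.z + B a.x a.y + a.z + B (-a.x) a.y = 0
      rw [map_neg, AddMonoidHom.neg_apply]; abel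

theorem mul_def (g h : HG B) : g * h = ⟨g.x + h.x, g.y + h.y, g.z + h.z + B g.x h.y⟩ := rfl

theorem commute_iff (g h : HG B) : Commute g h ↔ B g.x h.y = B h.x g.y := by
  unfold Commute SemiconjBy
  rw [mul_def, mul_def]
  constructor
  · intro hh
    have := congrArg HG.z hh
    simp only at this
    have h2 : g.z + h.z + B g.x h.y = g.z + h.z + B h.x g.y := by
      rw [this]; abel
    exact add_left_cancel h2
  · intro hh
    ext
    · exact add_comm _ _
    · exact add_comm _ _
    · show g.z + h.z + B g.x h.y = h.z + g.z + B h.x g.y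
      rw [hh]; abel

/-- the underlying set -/
def equiv : HG B ≃ X × Y × Z where
  toFun g := (g.x, g.y, g.z)
  invFun t := ⟨t.1, t.2.1, t.2.2⟩
  left_inv _ := rfl
  right_inv _ := rfl

theorem card_eq [Fintype X] [Fintype Y] [Fintype Z] :
    Nat.card (HG B) = Fintype.card X * (Fintype.card Y * Fintype.card Z) := by
  rw [Nat.card_congr (equiv B), Nat.card_eq_fintype_card, Fintype.card_prod, Fintype.card_prod]

end HG

end Pool.Agent.W224.AB
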