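import Pool.Agent.W224.AB.Basic

/-!
# The class number formula
-/

set_option autoImplicit false

open Finset

namespace Pool.Agent.W224.AB

variable {p : ℕ} [Fact p.Prime]

section

variable {X Y Z W : Type} [AddCommGroup X] [AddCommGroup Y] [AddCommGroup Z] [AddCommGroup W]
  [Fintype X] [Fintype Y] [Fintype Z] [Fintype W]
  (B : X →+ Y →+ Z) (P : W →+ Z →+ ZMod p)

open Classical in
/-- number of commuting pairs of `X × Y` -/
noncomputable def NC : ℕ :=
  (univ.filter fun q : (X × X) × (Y × Y) => B q.1.1 q.2.1 = B q.1.2 q.2.2).card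

open Classical in
/-- size of the left kernel of the form belonging to `w` -/
noncomputable def KK (w : W) : ℕ := (univ.filter fun x : X => ∀ y, P w (B x y) = 0).card

open Classical in
theorem char_count (hP : ∀ z, (∀ w, P w z = 0) → z = 0) :
    (Fintype.card W : ℂ) * (NC B : ℂ) =
      (Fintype.card Y : ℂ) ^ 2 * ∑ w : W, (KK B P w : ℂ) ^ 2 := by
  -- the double sum
  have h1 : ∀ q : (X × X) × (Y × Y),
      ∑ w : W, (ZMod.stdAddChar (P w (B q.1.1 q.2.1)) : ℂ) *
        ZMod.stdAddChar (-(P w (B q.1.2 q.2.2))) =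
        if B q.1.1 q.2.1 = B q.1.2 q.2.2 then (Fintype.card W : ℂ) else 0 := by
    intro q
    have h2 := sum_char (p := p) (A := W)
      (AddMonoidHom.mk' (fun w => P w (B q.1.1 q.2.1 - B q.1.2 q.2.2))
        (fun a b => by rw [map_add, AddMonoidHom.add_apply]))
    have h3 : (∀ w : W, (AddMonoidHom.mk' (fun w => P w (B q.1.1 q.2.1 - B q.1.2 q.2.2))
        (fun a b => by rw [map_add, AddMonoidHom.add_apply])) w = 0) ↔
          B q.1.1 q.2.1 = B q.1.2 q.2.2 := by
      constructor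
      · intro h
        exact sub_eq_zero.1 (hP _ h)
      · intro h w
        show P w (B q.1.1 q.2.1 - B q.1.2 q.2.2) = 0
        rw [h, sub_self, map_zero]
    rw [if_congr h3 rfl rfl] at h2
    rw [← h2]
    apply Finset.sum_congr rfl
    intro w _
    rw [← AddChar.map_add_eq_mul]
    congr 1
    show _ = P w (B q.1.1 q.2.1 - B q.1.2 q.2.2)
    rw [map_sub]; ring
  have h4 : ∑ q : (X × X) × (Y × Y), ∑ w : W, (ZMod.stdAddChar (P w (B q.1.1 q.2.1)) : ℂ) *
        ZMod.stdAddChar (-(P w (B q.1.2 q.2.2))) = (Fintype.card W : ℂ) * (NC B : ℂ) := by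
    rw [Finset.sum_congr rfl (fun q _ => h1 q), ← Finset.sum_filter, Finset.sum_const, nsmul_eq_mul,
      NC, mul_comm]
  rw [← h4, Finset.sum_comm, Finset.mul_sum]
  apply Finset.sum_congr rfl
  intro w _
  -- factor
  have h5 : ∀ x : X, ∑ y : Y, (ZMod.stdAddChar (P w (B x y)) : ℂ) =
      if (∀ y, P w (B x y) = 0) then (Fintype.card Y : ℂ) else 0 := by
    intro x
    exact sum_char (p := p) (A := Y) ((P w).comp (B x))
  have h6 : ∀ x : X, ∑ y : Y, (ZMod.stdAddChar (-(P w (B x y))) : ℂ) =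
      if (∀ y, P w (B x y) = 0) then (Fintype.card Y : ℂ) else 0 := by
    intro x
    have h7 := sum_char (p := p) (A := Y) (-((P w).comp (B x)))
    have h8 : (∀ y, (-((P w).comp (B x))) y = 0) ↔ ∀ y, P w (B x y) = 0 := by
      constructor
      · intro h y
        have := h y
        rw [AddMonoidHom.neg_apply, neg_eq_zero] at this
        exact this
      · intro h y
        rw [AddMonoidHom.neg_apply, neg_eq_zero]
        exact h y
    rw [if_congr h8 rfl rfl] at h7
    exact h7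
  have h9 : ∑ x : X, (if (∀ y, P w (B x y) = 0) then (Fintype.card Y : ℂ) else 0) =
      (KK B P w : ℂ) * Fintype.card Y := by
    rw [← Finset.sum_filter, Finset.sum_const, nsmul_eq_mul, KK]
  rw [Fintype.sum_prod_type]
  have h10 : ∀ xx : X × X, ∑ yy : Y × Y, (ZMod.stdAddChar (P w (B xx.1 yy.1)) : ℂ) *
        ZMod.stdAddChar (-(P w (B xx.2 yy.2))) =
        (∑ y : Y, (ZMod.stdAddChar (P w (B xx.1 y)) : ℂ)) *
          ∑ y : Y, (ZMod.stdAddChar (-(P w (B xx.2 y))) : ℂ) := by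
    intro xx
    rw [Finset.sum_mul_sum, Fintype.sum_prod_type]
  rw [Finset.sum_congr rfl (fun xx _ => h10 xx)]
  have h11 : ∑ xx : X × X, (∑ y : Y, (ZMod.stdAddChar (P w (B xx.1 y)) : ℂ)) *
          ∑ y : Y, (ZMod.stdAddChar (-(P w (B xx.2 y))) : ℂ) =
      (∑ x : X, ∑ y : Y, (ZMod.stdAddChar (P w (B x y)) : ℂ)) *
        ∑ x : X, ∑ y : Y, (ZMod.stdAddChar (-(P w (B x y))) : ℂ) := by
    rw [Finset.sum_mul_sum, Fintype.sum_prod_type]
  rw [h11, Finset.sum_congr rfl (fun x _ => h5 x), Finset.sum_congr rfl (fun x _ => h6 x), h9]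
  ring

/-- The number of classes. -/
theorem card_conj (hP : ∀ z, (∀ w, P w z = 0) → z = 0)
    (hWZ : Fintype.card W = Fintype.card Z) (hXY : Fintype.card X = Fintype.card Y) :
    Nat.card (ConjClasses (HG B)) = ∑ w : W, (KK B P w) ^ 2 := by
  classical
  haveI : Finite (HG B) := Finite.of_equiv _ (HG.equiv B).symm
  have h1 := card_comm_eq_card_conjClasses_mul_card (HG B)
  -- the commuting pairs
  let e : {q : HG B × HG B // Commute q.1 q.2} ≃
      {q : (X × X) × (Y × Y) // B q.1.1 q.2.1 = B q.1.2 q.2.2} × (Z × Z) :=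
    { toFun := fun q => (⟨((q.1.1.x, q.1.2.x), (q.1.2.y, q.1.1.y)),
        (HG.commute_iff B _ _).1 q.2⟩, (q.1.1.z, q.1.2.z))
      invFun := fun t => ⟨(⟨t.1.1.1.1, t.1.1.2.2, t.2.1⟩, ⟨t.1.1.1.2, t.1.1.2.1, t.2.2⟩),
        (HG.commute_iff B _ _).2 t.1.2⟩
      left_inv := fun _ => rfl
      right_inv := fun _ => rfl }
  rw [Nat.card_congr e, Nat.card_prod, HG.card_eq] at h1
  have h2 : Nat.card {q : (X × X) × (Y × Y) // B q.1.1 q.2.1 = B q.1.2 q.2.2} = NC B := by
    rw [Nat.card_eq_fintype_card, Fintype.card_subtype, NC]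
  rw [h2, Nat.card_prod, Nat.card_eq_fintype_card] at h1
  have h3 := char_count B P hP
  have hY : (Fintype.card Y : ℂ) ≠ 0 := by
    have := Fintype.card_pos (α := Y)
    exact_mod_cast this.ne'
  have hZ : (Fintype.card Z : ℂ) ≠ 0 := by
    have := Fintype.card_pos (α := Z)
    exact_mod_cast this.ne'
  have h4 : ((NC B : ℂ)) * ((Fintype.card Z : ℂ) * (Fintype.card Z : ℂ)) =
      (Nat.card (ConjClasses (HG B)) : ℂ) *
        ((Fintype.card X : ℂ) * ((Fintype.card Y : ℂ) * (Fintype.card Z : ℂ))) := by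
    exact_mod_cast h1
  rw [hWZ] at h3
  rw [hXY] at h4
  have h5 : (Nat.card (ConjClasses (HG B)) : ℂ) = ∑ w : W, (KK B P w : ℂ) ^ 2 := by
    have h6 : (Fintype.card Z : ℂ) * (Fintype.card Y : ℂ) ^ 2 *
        (Nat.card (ConjClasses (HG B)) : ℂ) =
        (Fintype.card Z : ℂ) * (Fintype.card Y : ℂ) ^ 2 * ∑ w : W, (KK B P w : ℂ) ^ 2 := by
      calc _ = (Nat.card (ConjClasses (HG B)) : ℂ) *
        ((Fintype.card Y : ℂ) * ((Fintype.card Y : ℂ) * (Fintype.card Z : ℂ))) := by ring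
        _ = (NC B : ℂ) * ((Fintype.card Z : ℂ) * (Fintype.card Z : ℂ)) := h4.symm
        _ = (Fintype.card Z : ℂ) * ((Fintype.card Z : ℂ) * (NC B : ℂ)) := by ring
        _ = _ := by rw [h3]; ring
    exact mul_left_cancel₀ (mul_ne_zero hZ (pow_ne_zero 2 hY)) h6
  exact_mod_cast h5

end

end Pool.Agent.W224.AB
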