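import Pool.Agent.W224.AB.Count

/-!
# The comparison gadget
-/

set_option autoImplicit false

open Finset

namespace Pool.Agent.W224.AB

variable {p : ℕ} [hp : Fact p.Prime]

/-- every function on `ZMod p` is a polynomial of degree less than `p` -/
theorem exists_coeff (f : ZMod p → ZMod p) :
    ∃ c : ℕ → ZMod p, ∀ v : ZMod p, ∑ j ∈ range p, c j * v ^ j = f v := by
  classical
  let q := Lagrange.interpolate (Finset.univ : Finset (ZMod p)) id f
  have hinj : Set.InjOn (id : ZMod p → ZMod p) ((Finset.univ : Finset (ZMod p)) : Set (ZMod p)) :=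
    Function.injective_id.injOn
  have hdeg : q.degree < (Finset.univ : Finset (ZMod p)).card := Lagrange.degree_interpolate_lt f hinj
  have hcard : (Finset.univ : Finset (ZMod p)).card = p := by
    rw [Finset.card_univ, ZMod.card]
  rw [hcard] at hdeg
  have hnat : q.natDegree < p := by
    by_cases h0 : q = 0
    · rw [h0, Polynomial.natDegree_zero]; exact hp.out.pos
    · exact (Polynomial.natDegree_lt_iff_degree_lt h0).2 hdeg
  refine ⟨q.coeff, fun v => ?_⟩
  rw [← Polynomial.eval_eq_sum_range' hnat v]
  exact Lagrange.eval_interpolate_at_node f hinj (Finset.mem_univ v)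

section Gad

variable (D : ℕ)

/-- index set of the unknowns -/
abbrev I (p D : ℕ) := Fin D × Fin p
/-- unknowns -/
abbrev XX (p D : ℕ) := ZMod p × (I p D → ZMod p)
/-- parameters -/
abbrev WW (p D : ℕ) := (Fin D → ZMod p) × ZMod p

variable {D}

/-- outputs -/
def out (z : I p D → ZMod p) : ℕ → ZMod p
  | 0 => 0
  | j + 1 => if h : j < D then z (⟨j, h⟩, ⟨0, hp.out.pos⟩) else 0

theorem out_add (z z' : I p D → ZMod p) (j : ℕ) : out (z + z') j = out z j + out z' j := by
  cases j with
  | zero => simp [out]
  | succ j =>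
    simp only [out]
    split_ifs <;> simp

/-- shifted unknown -/
def SS (z : I p D → ZMod p) (q : I p D) : ZMod p :=
  if h : q.2.val + 1 < p then z (q.1, ⟨q.2.val + 1, h⟩) else 0

theorem SS_add (z z' : I p D → ZMod p) (q : I p D) : SS (z + z') q = SS z q + SS z' q := by
  unfold SS
  split_ifs <;> simp

variable (al : ℕ → ZMod p) (be : ℕ → ℕ → ZMod p)

/-- constant part of the rows -/
def TT (x : XX p D) (q : I p D) : ZMod p :=
  al q.2.val * out x.2 q.1.val + be q.1.val q.2.val * x.1 - x.2 q

theorem TT_add (x x' : XX p D) (q : I p D) : TT al be (x + x') q = TT al be x q + TT al be x' q := by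
  unfold TT
  rw [Prod.snd_add, Prod.fst_add, out_add, Pi.add_apply]
  ring

/-- the closing row -/
def CC (x : XX p D) : ZMod p := out x.2 D - x.1

theorem CC_add (x x' : XX p D) : CC (x + x') = CC x + CC x' := by
  unfold CC
  rw [Prod.snd_add, Prod.fst_add, out_add]
  ring

/-- the bilinear map -/
def BB : XX p D →+ XX p D →+ WW p D :=
  AddMonoidHom.mk' (fun x => AddMonoidHom.mk' (fun y =>
      ((fun i => ∑ k : Fin p, SS x.2 (i, k) * y.2 (i, k)),
        (∑ q : I p D, TT al be x q * y.2 q) + CC x * y.1))
      (by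
        intro y y'
        ext i
        · simp [mul_add, Finset.sum_add_distrib]
        · simp [mul_add, Finset.sum_add_distrib]; ring))
    (by
      intro x x'
      ext y i
      · simp [SS_add, add_mul, Finset.sum_add_distrib]
      · simp [TT_add, CC_add, add_mul, Finset.sum_add_distrib]; ring)

/-- the pairing -/
def PP : WW p D →+ WW p D →+ ZMod p :=
  AddMonoidHom.mk' (fun w => AddMonoidHom.mk' (fun z => (∑ i, w.1 i * z.1 i) + w.2 * z.2)
      (by
        intro z z'
        simp [mul_add, Finset.sum_add_distrib]; ring))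
    (by
      intro w w'
      ext z
      simp [add_mul, Finset.sum_add_distrib]; ring)

theorem PP_nondeg (z : WW p D) (h : ∀ w : WW p D, PP w z = 0) : z = 0 := by
  classical
  ext i
  · have := h (Pi.single i 1, 0)
    simpa [PP, Pi.single_apply] using this
  · have := h (0, 1)
    simpa [PP] using this

theorem pair_eq (w : WW p D) (x y : XX p D) :
    PP w (BB al be x y) =
      (∑ q : I p D, (w.1 q.1 * SS x.2 q + w.2 * TT al be x q) * y.2 q) + (w.2 * CC x) * y.1 := by
  show (∑ i, w.1 i * ∑ k : Fin p, SS x.2 (i, k) * y.2 (i, k)) +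
    w.2 * ((∑ q : I p D, TT al be x q * y.2 q) + CC x * y.1) = _
  simp only [add_mul, Finset.sum_add_distrib, mul_add, Finset.mul_sum]
  rw [Fintype.sum_prod_type (f := fun q : I p D => w.1 q.1 * SS x.2 q * y.2 q)]
  simp only [mul_assoc]
  ring

theorem ker_iff (w : WW p D) (x : XX p D) :
    (∀ y, PP w (BB al be x y) = 0) ↔
      (∀ q : I p D, w.1 q.1 * SS x.2 q + w.2 * TT al be x q = 0) ∧ w.2 * CC x = 0 := by
  classical
  constructor
  · intro h
    constructor
    · intro q
      have := h (0, Pi.single q 1)
      rw [pair_eq] at this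
      simpa [Pi.single_apply] using this
    · have := h (1, 0)
      rw [pair_eq] at this
      simpa using this
  · rintro ⟨h1, h2⟩ y
    rw [pair_eq, h2]
    simp [h1]

end Gad

end Pool.Agent.W224.AB
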