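import Pool.Agent.W224.AB.Gadget

/-!
# Sizes of the kernels
-/

set_option autoImplicit false

open Finset

namespace Pool.Agent.W224.AB

variable {p : ℕ} [hp : Fact p.Prime]

/-- Horner sums -/
def HH (v : ZMod p) (c : ℕ → ZMod p) (k : ℕ) : ZMod p := ∑ j ∈ range (p - k), v ^ j * c (k + j)

theorem HH_rec (v : ZMod p) (c : ℕ → ZMod p) {k : ℕ} (hk : k < p) :
    HH v c k = c k + v * HH v c (k + 1) := by
  unfold HH
  have h1 : p - k = (p - (k + 1)) + 1 := by omega
  rw [h1, Finset.sum_range_succ', Finset.mul_sum, add_comm]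
  congr 1
  · simp
  · apply Finset.sum_congr rfl
    intro j _
    have h2 : k + (j + 1) = k + 1 + j := by ring
    rw [h2, pow_succ]; ring

theorem HH_top (v : ZMod p) (c : ℕ → ZMod p) {k : ℕ} (hk : p ≤ k) : HH v c k = 0 := by
  unfold HH
  rw [Nat.sub_eq_zero_of_le hk]; simp

/-- the comparison function -/
def GG (dl : ZMod p → ZMod p) (ch : ℕ → ZMod p → ZMod p) (v : ℕ → ZMod p) : ℕ → ZMod p
  | 0 => 0
  | i + 1 => dl (v i) * GG dl ch v i + ch i (v i)

section

variable {D : ℕ} (al : ℕ → ZMod p) (be : ℕ → ℕ → ZMod p)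
  (dl : ZMod p → ZMod p) (ch : ℕ → ZMod p → ZMod p)
  (hal : ∀ x, ∑ j ∈ range p, al j * x ^ j = dl x)
  (hbe : ∀ i x, ∑ j ∈ range p, be i j * x ^ j = ch i x)

/-- extended quotient vector -/
noncomputable def vv (w : WW p D) (i : ℕ) : ZMod p := if h : i < D then w.1 ⟨i, h⟩ / w.2 else 0

include hal hbe in
theorem HH_zero (v : ZMod p) (i : ℕ) (o r : ZMod p) :
    HH v (fun j => al j * o + be i j * r) 0 = dl v * o + ch i v * r := by
  unfold HH
  rw [← hal v, ← hbe i v, Finset.sum_mul, Finset.sum_mul, ← Finset.sum_add_distrib]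
  apply Finset.sum_congr (by simp)
  intro j _
  simp only [zero_add]
  ring

theorem row_solve (w : WW p D) (hw : w.2 ≠ 0) (x : XX p D) (q : I p D) :
    w.1 q.1 * SS x.2 q + w.2 * TT al be x q = 0 ↔
      x.2 q = (al q.2.val * out x.2 q.1.val + be q.1.val q.2.val * x.1) +
        vv w q.1.val * SS x.2 q := by
  have h1 : vv w q.1.val = w.1 q.1 / w.2 := by
    unfold vv
    rw [dif_pos q.1.isLt]
  rw [h1, TT]
  constructor
  · intro h
    field_simp
    linear_combination -h
  · intro h
    have h2 : w.2 * x.2 q = w.2 * (al q.2.val * out x.2 q.1.val + be q.1.val q.2.val * x.1) +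
        w.1 q.1 * SS x.2 q := by
      rw [h]; field_simp
    linear_combination -h2


include hal hbe in
theorem forward (w : WW p D) (hw : w.2 ≠ 0) (x : XX p D)
    (hrow : ∀ q : I p D, w.1 q.1 * SS x.2 q + w.2 * TT al be x q = 0) :
    (∀ q : I p D, x.2 q = HH (vv w q.1.val)
      (fun j => al j * out x.2 q.1.val + be q.1.val j * x.1) q.2.val) ∧
    ∀ i, i ≤ D → out x.2 i = GG dl ch (vv w) i * x.1 := by
  have h1 : ∀ (i : Fin D) (n k : ℕ) (hk : k < p), p - k = n + 1 → x.2 (i, ⟨k, hk⟩) =
      HH (vv w i.val) (fun j => al j * out x.2 i.val + be i.val j * x.1) k := by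
    intro i n
    induction n with
    | zero =>
      intro k hk hn
      have h2 := (row_solve al be w hw x (i, ⟨k, hk⟩)).1 (hrow _)
      have h3 : SS x.2 (i, (⟨k, hk⟩ : Fin p)) = 0 := by
        unfold SS
        rw [dif_neg]
        show ¬ (k + 1 < p)
        omega
      rw [h3, mul_zero, add_zero] at h2
      rw [h2, HH_rec _ _ hk, HH_top _ _ (by omega : p ≤ k + 1), mul_zero, add_zero]
    | succ n ih =>
      intro k hk hn
      have h2 := (row_solve al be w hw x (i, ⟨k, hk⟩)).1 (hrow _)
      have hk1 : k + 1 < p := by omega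
      have h3 : SS x.2 (i, (⟨k, hk⟩ : Fin p)) = x.2 (i, ⟨k + 1, hk1⟩) := by
        unfold SS
        rw [dif_pos (show (i, (⟨k, hk⟩ : Fin p)).2.val + 1 < p from hk1)]
      rw [h3, ih (k + 1) hk1 (by omega)] at h2
      rw [h2, HH_rec _ _ hk]
  have h4 : ∀ q : I p D, x.2 q = HH (vv w q.1.val)
      (fun j => al j * out x.2 q.1.val + be q.1.val j * x.1) q.2.val := by
    rintro ⟨i, ⟨k, hk⟩⟩
    exact h1 i (p - k - 1) k hk (by omega)
  refine ⟨h4, ?_⟩
  intro i
  induction i with
  | zero => intro _; simp [out, GG]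
  | succ i ih =>
    intro hi
    have hiD : i < D := by omega
    have h5 : out x.2 (i + 1) = x.2 (⟨i, hiD⟩, ⟨0, hp.out.pos⟩) := by
      simp only [out]
      rw [dif_pos hiD]
    rw [h5, h4]
    show HH (vv w i) (fun j => al j * out x.2 i + be i j * x.1) 0 = _
    rw [HH_zero al be dl ch hal hbe, ih (by omega), GG]
    ring

/-- the solution belonging to `r` -/
noncomputable def zs (w : WW p D) (r : ZMod p) (q : I p D) : ZMod p :=
  HH (vv w q.1.val) (fun j => al j * (GG dl ch (vv w) q.1.val * r) + be q.1.val j * r) q.2.val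

include hal hbe in
theorem out_zs (w : WW p D) (r : ZMod p) (i : ℕ) (hi : i ≤ D) :
    out (zs al be dl ch w r) i = GG dl ch (vv w) i * r := by
  cases i with
  | zero => simp [out, GG]
  | succ i =>
    have hiD : i < D := by omega
    simp only [out]
    rw [dif_pos hiD]
    show HH (vv w i) (fun j => al j * (GG dl ch (vv w) i * r) + be i j * r) 0 = _
    rw [HH_zero al be dl ch hal hbe, GG]
    ring

include hal hbe in
theorem rows_zs (w : WW p D) (hw : w.2 ≠ 0) (r : ZMod p) (q : I p D) :
    w.1 q.1 * SS (zs al be dl ch w r) q + w.2 * TT al be (r, zs al be dl ch w r) q = 0 := by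
  have key := (row_solve al be w hw (r, zs al be dl ch w r) q).2
  apply key
  show zs al be dl ch w r q = (al q.2.val * out (zs al be dl ch w r) q.1.val +
    be q.1.val q.2.val * r) + vv w q.1.val * SS (zs al be dl ch w r) q
  rw [out_zs al be dl ch hal hbe w r q.1.val q.1.isLt.le]
  have h1 : SS (zs al be dl ch w r) q = HH (vv w q.1.val)
      (fun j => al j * (GG dl ch (vv w) q.1.val * r) + be q.1.val j * r) (q.2.val + 1) := by
    unfold SS
    split_ifs with h
    · rfl
    · rw [HH_top _ _ (by omega)]
  rw [h1]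
  show HH _ _ _ = _
  rw [HH_rec _ _ q.2.isLt]

include hal hbe in
open Classical in
theorem KK_ne (w : WW p D) (hw : w.2 ≠ 0) :
    KK (BB al be) (PP (p := p) (D := D)) w = if GG dl ch (vv w) D = 1 then p else 1 := by
  have h1 : (univ.filter fun x : XX p D => ∀ y, PP w (BB al be x y) = 0) =
      (univ.filter fun r : ZMod p => GG dl ch (vv w) D * r = r).image
        (fun r => (r, zs al be dl ch w r)) := by
    ext x
    simp only [Finset.mem_filter, Finset.mem_univ, true_and, Finset.mem_image]
    rw [ker_iff]
    constructor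
    · rintro ⟨h2, h3⟩
      obtain ⟨h4, h5⟩ := forward al be dl ch hal hbe w hw x h2
      refine ⟨x.1, ?_, ?_⟩
      · rw [← h5 D le_rfl]
        have h6 : CC x = 0 := by
          rcases mul_eq_zero.1 h3 with h | h
          · exact absurd h hw
          · exact h
        unfold CC at h6
        linear_combination h6
      · refine Prod.ext rfl ?_
        funext q
        change zs al be dl ch w x.1 q = x.2 q
        rw [h4 q, h5 q.1.val q.1.isLt.le]
        rfl
    · rintro ⟨r, hr, rfl⟩
      refine ⟨fun q => rows_zs al be dl ch hal hbe w hw r q, ?_⟩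
      show w.2 * (out (zs al be dl ch w r) D - r) = 0
      rw [out_zs al be dl ch hal hbe w r D le_rfl, hr, sub_self, mul_zero]
  unfold KK
  rw [h1, Finset.card_image_of_injective _ (fun a b hab => congrArg Prod.fst hab)]
  split_ifs with h
  · rw [h]
    simp [ZMod.card]
  · have h2 : (univ.filter fun r : ZMod p => GG dl ch (vv w) D * r = r) = {0} := by
      ext r
      simp only [Finset.mem_filter, Finset.mem_univ, true_and, Finset.mem_singleton]
      constructor
      · intro h3
        by_contra h4
        apply h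
        have h5 : (GG dl ch (vv w) D - 1) * r = 0 := by linear_combination h3
        rcases mul_eq_zero.1 h5 with h6 | h6
        · linear_combination h6
        · exact absurd h6 h4
      · intro h3; rw [h3, mul_zero]
    rw [h2]; simp

open Classical in
theorem KK_zero (u : Fin D → ZMod p) :
    KK (BB al be) (PP (p := p) (D := D)) (u, 0) =
      p * p ^ (univ.filter fun q : I p D => q.2.val = 0 ∨ u q.1 = 0).card := by
  have h1 : (univ.filter fun x : XX p D => ∀ y, PP (u, (0 : ZMod p)) (BB al be x y) = 0) =
      (univ : Finset (ZMod p)) ×ˢ Fintype.piFinset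
        (fun q : I p D => if q.2.val = 0 ∨ u q.1 = 0 then (univ : Finset (ZMod p)) else {0}) := by
    ext x
    simp only [Finset.mem_filter, Finset.mem_univ, true_and, Finset.mem_product,
      Fintype.mem_piFinset]
    rw [ker_iff]
    simp only [zero_mul, add_zero, and_true]
    constructor
    · intro h ⟨i, ⟨k, hk⟩⟩
      split_ifs with h2
      · exact Finset.mem_univ _
      · rw [Finset.mem_singleton]
        push Not at h2
        obtain ⟨h3, h4⟩ := h2
        have h5 := h (i, ⟨k - 1, by omega⟩)
        simp only at h3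
        have h6 : SS x.2 (i, (⟨k - 1, by omega⟩ : Fin p)) = x.2 (i, ⟨k, hk⟩) := by
          unfold SS
          rw [dif_pos (show k - 1 + 1 < p by omega)]
          exact congrArg x.2 (Prod.ext rfl (Fin.ext (by show k - 1 + 1 = k; omega)))
        rw [h6] at h5
        rcases mul_eq_zero.1 h5 with h7 | h7
        · exact absurd h7 h4
        · exact h7
    · intro h q
      by_cases hu : u q.1 = 0
      · rw [hu, zero_mul]
      · unfold SS
        split_ifs with h2
        · have h3 := h (q.1, ⟨q.2.val + 1, h2⟩)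
          rw [if_neg] at h3
          · rw [Finset.mem_singleton] at h3
            rw [h3, mul_zero]
          · push Not
            exact ⟨Nat.succ_ne_zero _, hu⟩
        · rw [mul_zero]
  unfold KK
  rw [h1, Finset.card_product, Fintype.card_piFinset, Finset.card_univ, ZMod.card]
  congr 1
  have h2 : ∀ q : I p D, (if q.2.val = 0 ∨ u q.1 = 0 then (univ : Finset (ZMod p)) else {0}).card =
      if q.2.val = 0 ∨ u q.1 = 0 then p else 1 := by
    intro q
    split_ifs
    · rw [Finset.card_univ, ZMod.card]
    · simp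
  rw [Finset.prod_congr rfl (fun q _ => h2 q), Finset.prod_ite, Finset.prod_const, Finset.prod_const,
    one_pow, mul_one]

end

end Pool.Agent.W224.AB
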