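import Pool.Agent.W224.AB.Kernel

/-!
# The class numbers of the groups of the family
-/

set_option autoImplicit false

open Finset

namespace Pool.Agent.W224.AB

variable {p : ℕ} [hp : Fact p.Prime]

/-- extension by zero -/
def ext0 {D : ℕ} (v : Fin D → ZMod p) (i : ℕ) : ZMod p := if h : i < D then v ⟨i, h⟩ else 0

theorem GG_congr (dl : ZMod p → ZMod p) (ch : ℕ → ZMod p → ZMod p) (v v' : ℕ → ZMod p) (n : ℕ)
    (h : ∀ i, i < n → v i = v' i) : GG dl ch v n = GG dl ch v' n := by
  induction n with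
  | zero => rfl
  | succ n ih =>
    rw [GG, GG, ih (fun i hi => h i (by omega)), h n (by omega)]

/-- indicator of zero -/
def dl0 (x : ZMod p) : ZMod p := if x = 0 then 1 else 0

open Classical in
/-- indicator of a set -/
noncomputable def ch0 (C : ℕ → Finset (ZMod p)) (i : ℕ) (x : ZMod p) : ZMod p :=
  if x ∈ C i then 1 else 0

theorem GG_01 (C : ℕ → Finset (ZMod p)) (hC : ∀ i, (0 : ZMod p) ∉ C i) (v : ℕ → ZMod p) (n : ℕ) :
    GG dl0 (ch0 C) v n = 0 ∨ GG dl0 (ch0 C) v n = 1 := by
  induction n with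
  | zero => left; rfl
  | succ n ih =>
    rw [GG]
    unfold dl0 ch0
    by_cases h : v n = 0
    · rw [if_pos h, h, if_neg (hC n)]
      rcases ih with h1 | h1
      · left; unfold dl0 ch0 at h1; rw [h1]; ring
      · right; unfold dl0 ch0 at h1; rw [h1]; ring
    · rw [if_neg h]
      split_ifs
      · right; ring
      · left; ring

open Classical in
/-- number of accepted vectors -/
noncomputable def NN (C : ℕ → Finset (ZMod p)) (D : ℕ) : ℕ :=
  ∑ v : Fin D → ZMod p, if GG dl0 (ch0 C) (ext0 v) D = 1 then 1 else 0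

theorem NN_succ (C : ℕ → Finset (ZMod p)) (hC : ∀ i, (0 : ZMod p) ∉ C i) (D : ℕ) :
    NN C (D + 1) = NN C D + (C D).card * p ^ D := by
  classical
  unfold NN
  rw [← Equiv.sum_comp (Fin.snocEquiv (fun _ : Fin (D + 1) => ZMod p)), Fintype.sum_prod_type]
  have h1 : ∀ (x : ZMod p) (v : Fin D → ZMod p),
      GG dl0 (ch0 C) (ext0 ((Fin.snocEquiv (fun _ : Fin (D + 1) => ZMod p)) (x, v))) (D + 1) =
        dl0 x * GG dl0 (ch0 C) (ext0 v) D + ch0 C D x := by
    intro x v
    rw [GG]
    have h2 : ext0 ((Fin.snocEquiv (fun _ : Fin (D + 1) => ZMod p)) (x, v)) D = x := by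
      unfold ext0
      rw [dif_pos (Nat.lt_succ_self D)]
      show Fin.snoc (α := fun _ : Fin (D + 1) => ZMod p) v x ⟨D, _⟩ = x
      exact Fin.snoc_last (α := fun _ : Fin (D + 1) => ZMod p) x v
    rw [h2]
    congr 2
    apply GG_congr
    intro i hi
    unfold ext0
    rw [dif_pos (by omega : i < D + 1), dif_pos hi]
    exact Fin.snoc_castSucc (α := fun _ : Fin (D + 1) => ZMod p) x v ⟨i, hi⟩
  have h3 : ∀ x : ZMod p, (∑ v : Fin D → ZMod p,
      if GG dl0 (ch0 C) (ext0 ((Fin.snocEquiv (fun _ : Fin (D + 1) => ZMod p)) (x, v))) (D + 1) = 1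
        then 1 else 0) = (if x = 0 then NN C D else 0) + if x ∈ C D then p ^ D else 0 := by
    intro x
    by_cases hx : x = 0
    · rw [if_pos hx, if_neg (by rw [hx]; exact hC D), add_zero, NN]
      apply Finset.sum_congr rfl
      intro v _
      have h5 : dl0 x = 1 := if_pos hx
      have h6 : ch0 C D x = 0 := if_neg (by rw [hx]; exact hC D)
      rw [h1, h5, h6, one_mul, add_zero]
    · rw [if_neg hx, zero_add]
      by_cases hc : x ∈ C D
      · rw [if_pos hc]
        have h4 : ∀ v : Fin D → ZMod p, GG dl0 (ch0 C)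
          (ext0 ((Fin.snocEquiv (fun _ : Fin (D + 1) => ZMod p)) (x, v))) (D + 1) = 1 := by
          intro v
          rw [h1]
          unfold dl0 ch0
          rw [if_neg hx, if_pos hc]; ring
        rw [Finset.sum_congr rfl (fun v _ => if_pos (h4 v))]
        simp [ZMod.card]
      · rw [if_neg hc]
        have h4 : ∀ v : Fin D → ZMod p, ¬ GG dl0 (ch0 C)
          (ext0 ((Fin.snocEquiv (fun _ : Fin (D + 1) => ZMod p)) (x, v))) (D + 1) = 1 := by
          intro v
          rw [h1]
          unfold dl0 ch0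
          rw [if_neg hx, if_neg hc]
          simp
        rw [Finset.sum_congr rfl (fun v _ => if_neg (h4 v))]
        simp
  rw [Finset.sum_congr rfl (fun x _ => h3 x), Finset.sum_add_distrib]
  congr 1
  · simp [NN]
  · simp

theorem NN_eq (C : ℕ → Finset (ZMod p)) (hC : ∀ i, (0 : ZMod p) ∉ C i) (D : ℕ) :
    NN C D = ∑ i ∈ range D, (C i).card * p ^ i := by
  induction D with
  | zero =>
    unfold NN
    simp [GG]
  | succ D ih => rw [NN_succ C hC, ih, Finset.sum_range_succ]

theorem digits_sum (M D : ℕ) : ∑ i ∈ range D, (M / p ^ i % p) * p ^ i = M % p ^ D := by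
  induction D with
  | zero => simp [Nat.mod_one]
  | succ D ih => rw [Finset.sum_range_succ, ih, pow_succ, Nat.mod_mul]; ring

theorem exists_C (M D : ℕ) (hM : M < p ^ D) :
    ∃ C : ℕ → Finset (ZMod p), (∀ i, (0 : ZMod p) ∉ C i) ∧ NN C D = M := by
  classical
  have h1 : ∀ i : ℕ, ∃ t ⊆ (univ.erase (0 : ZMod p)), t.card = M / p ^ i % p := by
    intro i
    apply Finset.exists_subset_card_eq
    rw [Finset.card_erase_of_mem (Finset.mem_univ _), Finset.card_univ, ZMod.card]
    have := Nat.mod_lt (M / p ^ i) hp.out.pos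
    omega
  choose C hC1 hC2 using h1
  have hC : ∀ i, (0 : ZMod p) ∉ C i := by
    intro i h
    exact (Finset.mem_erase.1 (hC1 i h)).1 rfl
  refine ⟨C, hC, ?_⟩
  rw [NN_eq C hC, Finset.sum_congr rfl (fun i _ => by rw [hC2 i]), digits_sum, Nat.mod_eq_of_lt hM]

open Classical in
/-- exponent of the base part -/
noncomputable def cc {D : ℕ} (u : Fin D → ZMod p) : ℕ :=
  (univ.filter fun q : I p D => q.2.val = 0 ∨ u q.1 = 0).card

/-- all class numbers of the family -/
theorem total (D M : ℕ) (hM : M < p ^ D) :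
    ∃ B : XX p D →+ XX p D →+ WW p D, Nat.card (ConjClasses (HG B)) =
      (∑ u : Fin D → ZMod p, (p * p ^ cc u) ^ 2) + (p - 1) * (p ^ D + (p ^ 2 - 1) * M) := by
  classical
  obtain ⟨C, hC, hN⟩ := exists_C (p := p) M D hM
  obtain ⟨al, hal⟩ := exists_coeff (p := p) dl0
  choose be hbe using fun i => exists_coeff (p := p) (ch0 C i)
  refine ⟨BB al be, ?_⟩
  rw [card_conj (BB al be) (PP (p := p) (D := D)) PP_nondeg rfl rfl, Fintype.sum_prod_type_right,
    ← Finset.add_sum_erase _ _ (Finset.mem_univ (0 : ZMod p))]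
  congr 1
  · apply Finset.sum_congr rfl
    intro u _
    rw [KK_zero]
    rfl
  · have h1 : ∀ m ∈ univ.erase (0 : ZMod p), ∑ u : Fin D → ZMod p,
        KK (BB al be) (PP (p := p) (D := D)) (u, m) ^ 2 = p ^ D + (p ^ 2 - 1) * M := by
      intro m hm
      have hm0 : m ≠ 0 := (Finset.mem_erase.1 hm).1
      have h2 : ∀ u : Fin D → ZMod p, KK (BB al be) (PP (p := p) (D := D)) (u, m) ^ 2 =
          if GG dl0 (ch0 C) (ext0 fun i => u i / m) D = 1 then p ^ 2 else 1 := by
        intro u
        rw [KK_ne al be dl0 (ch0 C) hal hbe (u, m) hm0]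
        have h3 : vv ((u, m) : WW p D) = ext0 fun i => u i / m := rfl
        rw [h3]
        split_ifs <;> simp
      rw [Finset.sum_congr rfl (fun u _ => h2 u)]
      let e : (Fin D → ZMod p) ≃ (Fin D → ZMod p) :=
        { toFun := fun u i => u i / m
          invFun := fun u i => u i * m
          left_inv := fun u => by funext i; simp only; field_simp
          right_inv := fun u => by funext i; simp only; field_simp }
      have h4 : ∑ u : Fin D → ZMod p,
          (if GG dl0 (ch0 C) (ext0 fun i => u i / m) D = 1 then p ^ 2 else 1) =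
          ∑ v : Fin D → ZMod p, (if GG dl0 (ch0 C) (ext0 v) D = 1 then p ^ 2 else 1) :=
        Equiv.sum_comp e (fun v => if GG dl0 (ch0 C) (ext0 v) D = 1 then p ^ 2 else 1)
      rw [h4]
      have hp2 : 1 ≤ p ^ 2 := Nat.one_le_pow _ _ hp.out.pos
      have h5 : ∀ v : Fin D → ZMod p, (if GG dl0 (ch0 C) (ext0 v) D = 1 then p ^ 2 else 1) =
          1 + (p ^ 2 - 1) * (if GG dl0 (ch0 C) (ext0 v) D = 1 then 1 else 0) := by
        intro v
        split_ifs
        · omega
        · simp
      rw [Finset.sum_congr rfl (fun v _ => h5 v), Finset.sum_add_distrib, ← Finset.mul_sum]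
      have h6 : (∑ v : Fin D → ZMod p, if GG dl0 (ch0 C) (ext0 v) D = 1 then 1 else 0) = M := hN
      rw [h6]
      simp [ZMod.card]
    rw [Finset.sum_congr rfl h1, Finset.sum_const, Finset.card_erase_of_mem (Finset.mem_univ _),
      Finset.card_univ, ZMod.card, smul_eq_mul]

/-- the order of the groups -/
theorem order (D : ℕ) (B : XX p D →+ XX p D →+ WW p D) :
    Nat.card (HG B) = p ^ ((2 * p + 1) * D + 3) := by
  rw [HG.card_eq]
  have h1 : Fintype.card (XX p D) = p ^ (D * p + 1) := by
    rw [Fintype.card_prod, ZMod.card, Fintype.card_fun, ZMod.card, Fintype.card_prod,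
      Fintype.card_fin, Fintype.card_fin, pow_succ]
    ring
  have h2 : Fintype.card (WW p D) = p ^ (D + 1) := by
    rw [Fintype.card_prod, ZMod.card, Fintype.card_fun, ZMod.card, Fintype.card_fin, pow_succ]
  rw [h1, h2, ← pow_add, ← pow_add]
  congr 1
  ring

end Pool.Agent.W224.AB
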